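import Pool.Agent.Y773.NV.St1

/-!
Project NV (helper773), job EXPB: divisor-type bounds for the coefficients and the mollifier.
-/

set_option autoImplicit false

open Complex MeasureTheory NumberField

namespace Pool.Agent.Y419.NV

open Pool.Agent.Y773.NV

section
variable {K : Type} [Field K] [NumberField K]

/-- a set of prime ideals -/
def AllP (A : Finset (Ideal (𝓞 K))) : Prop := ∀ p ∈ A, Prime p

theorem prime_dvd_idl {A : Finset (Ideal (𝓞 K))} (hA : AllP A) {p : Ideal (𝓞 K)} (hp : Prime p) :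
    p ∣ idl A ↔ p ∈ A := by
  constructor
  · intro h
    obtain ⟨q, hq, hpq⟩ := hp.exists_mem_finset_dvd h
    have h1 := (hp.dvd_prime_iff_associated (hA q hq)).1 hpq
    rw [associated_iff_eq] at h1
    rw [h1]
    exact hq
  · intro h
    exact Finset.dvd_prod_of_mem _ h

theorem idl_inj {A B : Finset (Ideal (𝓞 K))} (hA : AllP A) (hB : AllP B) (h : idl A = idl B) :
    A = B := by
  ext p
  constructor
  · intro hp
    rw [← prime_dvd_idl hB (hA p hp), ← h]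
    exact (prime_dvd_idl hA (hA p hp)).2 hp
  · intro hp
    rw [← prime_dvd_idl hA (hB p hp), h]
    exact (prime_dvd_idl hB (hB p hp)).2 hp

theorem idl_ne {A : Finset (Ideal (𝓞 K))} (hA : AllP A) : idl A ≠ ⊥ := by
  rw [← Ideal.zero_eq_bot]
  unfold idl
  rw [Finset.prod_ne_zero_iff]
  intro p hp
  exact (hA p hp).ne_zero

theorem nA_eq (A : Finset (Ideal (𝓞 K))) : nA nm A = nm (idl A) := by
  unfold nA nm idl
  rw [map_prod, Nat.cast_prod]

theorem nm_ge {𝔞 : Ideal (𝓞 K)} (h : 𝔞 ≠ ⊥) : 1 ≤ nm 𝔞 := by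
  unfold nm
  exact_mod_cast Nat.one_le_iff_ne_zero.2 (by rwa [Ne, Ideal.absNorm_eq_zero_iff])

theorem two_pow {A : Finset (Ideal (𝓞 K))} (hA : AllP A) {u : Ideal (𝓞 K)} (hu : u ≠ ⊥)
    (h : idl A ∣ u) : 2 ^ A.card ≤ (dvs u).card := by
  rw [← Finset.card_powerset]
  refine Finset.card_le_card_of_injOn (fun B => idl B) ?_ ?_
  · intro B hB
    have hB' : B ⊆ A := Finset.mem_powerset.1 hB
    exact (mem_dvs hu).2 ((Finset.prod_dvd_prod_of_subset _ _ _ hB').trans h)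
  · intro B hB B' hB' hBB
    have h1 : B ⊆ A := Finset.mem_powerset.1 hB
    have h2 : B' ⊆ A := Finset.mem_powerset.1 hB'
    exact idl_inj (fun p hp => hA p (h1 hp)) (fun p hp => hA p (h2 hp)) hBB

theorem card_F {F : Finset (Finset (Ideal (𝓞 K)))} (hF : ∀ A ∈ F, AllP A) {u : Ideal (𝓞 K)}
    (hu : u ≠ ⊥) (h : ∀ A ∈ F, idl A ∣ u) : F.card ≤ (dvs u).card := by
  refine Finset.card_le_card_of_injOn (fun B => idl B) ?_ ?_
  · intro B hB
    exact (mem_dvs hu).2 (h B hB)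
  · intro B hB B' hB' hBB
    exact idl_inj (hF B hB) (hF B' hB') hBB

theorem allP_SM {𝔣 : Ideal (𝓞 K)} {M M' : ℝ} {A : Finset (Ideal (𝓞 K))}
    (hA : A ∈ SM (Pr 𝔣 M) nm M') : AllP A ∧ nA nm A ≤ M' := by
  unfold SM at hA
  rw [Finset.mem_filter, Finset.mem_powerset] at hA
  exact ⟨fun p hp => (mem_Pr.1 (hA.1 hp)).1, hA.2⟩

theorem nm_two {p : Ideal (𝓞 K)} (hp : Prime p) : 2 ≤ nm p := by
  have h1 : 1 ≤ Ideal.absNorm p :=
    Nat.one_le_iff_ne_zero.2 (by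
      rw [Ne, Ideal.absNorm_eq_zero_iff, ← Ideal.zero_eq_bot]; exact hp.ne_zero)
  have h2 : Ideal.absNorm p ≠ 1 := by
    rw [Ne, Ideal.absNorm_eq_one_iff, ← Ideal.isUnit_iff]
    exact hp.not_unit
  unfold nm
  exact_mod_cast (by omega : 2 ≤ Ideal.absNorm p)

theorem sum_idl {F : Finset (Finset (Ideal (𝓞 K)))} (hF : ∀ A ∈ F, AllP A) {δ C : ℝ}
    (hC : ∀ S : Finset (Ideal (𝓞 K)), (∀ 𝔞 ∈ S, 𝔞 ≠ ⊥) → ∑ 𝔞 ∈ S, nm 𝔞 ^ (-1 - δ) ≤ C) :
    ∑ A ∈ F, nm (idl A) ^ (-1 - δ) ≤ C := by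
  classical
  have h1 : ∑ A ∈ F, nm (idl A) ^ (-1 - δ) = ∑ 𝔞 ∈ F.image (fun A => idl A), nm 𝔞 ^ (-1 - δ) := by
    rw [Finset.sum_image]
    intro B hB B' hB' hBB
    exact idl_inj (hF B hB) (hF B' hB') hBB
  rw [h1]
  refine hC _ ?_
  intro 𝔞 h𝔞
  rw [Finset.mem_image] at h𝔞
  obtain ⟨A, hA, rfl⟩ := h𝔞
  exact idl_ne (hF A hA)

end

theorem hp_re (t : ℝ) : (hp t).re = 1 / 2 := by
  unfold hp
  simp

theorem t_expb : St_SEL → St_DIV → St_EXPB := by
  classical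
  intro SEL DIV K _ _ η hη
  obtain ⟨C1, hC1, hd1, hs1⟩ := DIV K (η / 2) (by positivity)
  obtain ⟨C2, hC2, hd2, hs2⟩ := DIV K (η / 16) (by positivity)
  obtain ⟨C3, hC3, hd3, hs3⟩ := DIV K (η / 4) (by positivity)
  have hC1p : 0 ≤ C1 := by linarith
  have hC2p : 0 ≤ C2 := by linarith
  have hC3p : 0 ≤ C3 := by linarith
  have hq1 : 1 ≤ C1 ^ 2 := one_le_pow₀ hC1
  have hq2 : 0 ≤ C2 ^ 4 * C3 := by positivity
  refine ⟨C1 ^ 2 + C2 ^ 4 * C3, by linarith, ?_⟩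
  intro 𝔣 M t hM
  have hM0 : 0 < M := by linarith
  have hb : ∀ A ∈ SM (Pr 𝔣 M) nm M, |bS (Pr 𝔣 M) nm M A| ≤ 2 ^ A.card :=
    (SEL (Ideal (𝓞 K)) (Pr 𝔣 M) nm M (fun p hp => nm_two (mem_Pr.1 hp).1) hM).2.2.1
  refine ⟨?_, ?_, ?_⟩
  · intro s 𝔲 hs hu
    have hu1 := nm_ge hu
    have hu0 : 0 < nm 𝔲 := by linarith
    set D : ℝ := ((dvs 𝔲).card : ℝ) with hD
    have hD0 : 0 ≤ D := Nat.cast_nonneg _
    have h1 : ‖aC 𝔣 M t s 𝔲‖ ≤ D * (D * M ^ (s.re - 1 / 2) * nm 𝔲 ^ (-s.re)) := by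
      unfold aC
      refine (norm_sum_le _ _).trans ?_
      refine (Finset.sum_le_card_nsmul _ _ (D * M ^ (s.re - 1 / 2) * nm 𝔲 ^ (-s.re)) ?_).trans ?_
      · intro A hA
        rw [Finset.mem_filter] at hA
        obtain ⟨hA1, hA2⟩ := hA
        obtain ⟨hA3, hA4⟩ := allP_SM hA1
        have hnA : 1 ≤ nA nm A := by
          rw [nA_eq]; exact nm_ge (idl_ne hA3)
        have hnA0 : 0 < nA nm A := by linarith
        rw [norm_mul, norm_mul, Complex.norm_cpow_eq_rpow_re_of_pos hnA0,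
          Complex.norm_cpow_eq_rpow_re_of_pos hu0, Complex.norm_real, Real.norm_eq_abs,
          Complex.sub_re, hp_re, Complex.neg_re]
        refine mul_le_mul_of_nonneg_right ?_ (Real.rpow_nonneg hu0.le _)
        refine mul_le_mul ?_ ?_ (Real.rpow_nonneg hnA0.le _) hD0
        · refine (hb A hA1).trans ?_
          rw [hD]
          exact_mod_cast two_pow hA3 hu hA2
        · exact Real.rpow_le_rpow hnA0.le hA4 (by linarith)
      · rw [nsmul_eq_mul]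
        refine mul_le_mul_of_nonneg_right ?_ ?_
        · rw [hD]
          exact_mod_cast card_F (fun A hA => (allP_SM (Finset.mem_filter.1 hA).1).1) hu
            (fun A hA => (Finset.mem_filter.1 hA).2)
        · exact mul_nonneg (mul_nonneg hD0 (Real.rpow_nonneg hM0.le _))
            (Real.rpow_nonneg hu0.le _)
    have h2 : D * D ≤ C1 ^ 2 * nm 𝔲 ^ η := by
      have h3 := hd1 𝔲 hu
      have h4 : nm 𝔲 ^ η = nm 𝔲 ^ (η / 2) * nm 𝔲 ^ (η / 2) := by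
        rw [← Real.rpow_add hu0]
        congr 1
        ring
      rw [h4]
      refine (mul_le_mul h3 h3 hD0 (by positivity)).trans (le_of_eq ?_)
      ring
    calc ‖aC 𝔣 M t s 𝔲‖ ≤ D * (D * M ^ (s.re - 1 / 2) * nm 𝔲 ^ (-s.re)) := h1
      _ = (D * D) * (M ^ (s.re - 1 / 2) * nm 𝔲 ^ (-s.re)) := by ring
      _ ≤ (C1 ^ 2 * nm 𝔲 ^ η) * (M ^ (s.re - 1 / 2) * nm 𝔲 ^ (-s.re)) :=
          mul_le_mul_of_nonneg_right h2 (mul_nonneg (Real.rpow_nonneg hM0.le _)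
            (Real.rpow_nonneg hu0.le _))
      _ = C1 ^ 2 * (M ^ (s.re - 1 / 2) * (nm 𝔲 ^ η * nm 𝔲 ^ (-s.re))) := by ring
      _ = C1 ^ 2 * (M ^ (s.re - 1 / 2) * nm 𝔲 ^ (η - s.re)) := by
          rw [← Real.rpow_add hu0, sub_eq_add_neg η]
      _ ≤ (C1 ^ 2 + C2 ^ 4 * C3) * (M ^ (s.re - 1 / 2) * nm 𝔲 ^ (η - s.re)) :=
          mul_le_mul_of_nonneg_right (by linarith) (mul_nonneg (Real.rpow_nonneg hM0.le _)
            (Real.rpow_nonneg hu0.le _))
      _ = _ := by ring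
  · intro ψ hψ
    have h1 : ‖mol 𝔣 M t ψ‖ ≤ ∑ A ∈ SM (Pr 𝔣 M) nm M,
        C1 * M ^ (1 / 2 + η) * nm (idl A) ^ (-1 - η / 2) := by
      unfold mol
      refine (norm_sum_le _ _).trans (Finset.sum_le_sum ?_)
      intro A hA
      obtain ⟨hA3, hA4⟩ := allP_SM hA
      have hn : 1 ≤ nm (idl A) := nm_ge (idl_ne hA3)
      have hn0 : 0 < nm (idl A) := by linarith
      have hnA0 : 0 < nA nm A := by rw [nA_eq]; exact hn0
      rw [norm_mul, norm_mul, Complex.norm_cpow_eq_rpow_re_of_pos hnA0, Complex.norm_real,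
        Real.norm_eq_abs, Complex.neg_re, hp_re]
      have h2 : |bS (Pr 𝔣 M) nm M A| ≤ C1 * nm (idl A) ^ (η / 2) := by
        refine (hb A hA).trans ?_
        refine le_trans ?_ (hd1 (idl A) (idl_ne hA3))
        exact_mod_cast two_pow hA3 (idl_ne hA3) dvd_rfl
      rw [nA_eq]
      rw [nA_eq] at hA4
      calc |bS (Pr 𝔣 M) nm M A| * ‖ψ (idl A)‖ * nm (idl A) ^ (-(1 / 2) : ℝ)
          ≤ (C1 * nm (idl A) ^ (η / 2)) * 1 * nm (idl A) ^ (-(1 / 2) : ℝ) := by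
            refine mul_le_mul_of_nonneg_right ?_ (Real.rpow_nonneg hn0.le _)
            exact mul_le_mul h2 (hψ _) (norm_nonneg _)
              (mul_nonneg hC1p (Real.rpow_nonneg hn0.le _))
        _ = C1 * (nm (idl A) ^ (1 / 2 + η) * nm (idl A) ^ (-1 - η / 2)) := by
            rw [mul_one, mul_assoc, ← Real.rpow_add hn0, ← Real.rpow_add hn0]
            congr 2
            ring
        _ ≤ C1 * (M ^ (1 / 2 + η) * nm (idl A) ^ (-1 - η / 2)) := by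
            refine mul_le_mul_of_nonneg_left ?_ hC1p
            refine mul_le_mul_of_nonneg_right ?_ (Real.rpow_nonneg hn0.le _)
            exact Real.rpow_le_rpow hn0.le hA4 (by positivity)
        _ = _ := by ring
    rw [← Finset.mul_sum] at h1
    have h3 : ∑ A ∈ SM (Pr 𝔣 M) nm M, nm (idl A) ^ (-1 - η / 2) ≤ C1 :=
      sum_idl (fun A hA => (allP_SM hA).1) hs1
    have hMp : 0 ≤ M ^ (1 / 2 + η) := Real.rpow_nonneg hM0.le _
    calc ‖mol 𝔣 M t ψ‖ ≤ C1 * M ^ (1 / 2 + η) *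
          ∑ A ∈ SM (Pr 𝔣 M) nm M, nm (idl A) ^ (-1 - η / 2) := h1
      _ ≤ C1 * M ^ (1 / 2 + η) * C1 := mul_le_mul_of_nonneg_left h3 (by positivity)
      _ = C1 ^ 2 * M ^ (1 / 2 + η) := by ring
      _ ≤ _ := mul_le_mul_of_nonneg_right (by linarith) hMp
  · have h1 : ∑ U ∈ SM (Pr 𝔣 M) nm (M ^ 2), 12 ^ U.card / nA nm U ≤
        ∑ U ∈ SM (Pr 𝔣 M) nm (M ^ 2), C2 ^ 4 * M ^ η * nm (idl U) ^ (-1 - η / 4) := by
      refine Finset.sum_le_sum ?_
      intro U hU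
      obtain ⟨hA3, hA4⟩ := allP_SM hU
      have hn : 1 ≤ nm (idl U) := nm_ge (idl_ne hA3)
      have hn0 : 0 < nm (idl U) := by linarith
      rw [nA_eq]
      rw [nA_eq] at hA4
      have h2 : (2 : ℝ) ^ U.card ≤ C2 * nm (idl U) ^ (η / 16) := by
        refine le_trans ?_ (hd2 (idl U) (idl_ne hA3))
        exact_mod_cast two_pow hA3 (idl_ne hA3) dvd_rfl
      have h3 : (12 : ℝ) ^ U.card ≤ (2 ^ U.card) ^ 4 := by
        rw [← pow_mul, mul_comm, pow_mul]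
        exact pow_le_pow_left₀ (by norm_num) (by norm_num) _
      have h4 : (2 ^ U.card : ℝ) ^ 4 ≤ (C2 * nm (idl U) ^ (η / 16)) ^ 4 :=
        pow_le_pow_left₀ (by positivity) h2 _
      have h5 : (C2 * nm (idl U) ^ (η / 16)) ^ 4 = C2 ^ 4 * nm (idl U) ^ (η / 4) := by
        rw [mul_pow, ← Real.rpow_natCast (nm (idl U) ^ (η / 16)), ← Real.rpow_mul hn0.le]
        congr 2
        push_cast
        ring
      have h6 : nm (idl U) ^ (η / 2) ≤ M ^ η := by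
        have h7 : M ^ η = (M ^ 2) ^ (η / 2) := by
          rw [← Real.rpow_natCast M, ← Real.rpow_mul hM0.le]
          congr 1
          push_cast
          ring
        rw [h7]
        exact Real.rpow_le_rpow hn0.le hA4 (by positivity)
      calc (12 : ℝ) ^ U.card / nm (idl U) ≤ C2 ^ 4 * nm (idl U) ^ (η / 4) / nm (idl U) :=
            div_le_div_of_nonneg_right (by linarith) hn0.le
        _ = C2 ^ 4 * (nm (idl U) ^ (η / 2) * nm (idl U) ^ (-1 - η / 4)) := by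
            rw [← Real.rpow_add hn0, mul_div_assoc]
            congr 1
            rw [div_eq_mul_inv, ← Real.rpow_neg_one (nm (idl U)), ← Real.rpow_add hn0]
            congr 1
            ring
        _ ≤ C2 ^ 4 * (M ^ η * nm (idl U) ^ (-1 - η / 4)) := by
            refine mul_le_mul_of_nonneg_left ?_ (by positivity)
            exact mul_le_mul_of_nonneg_right h6 (Real.rpow_nonneg hn0.le _)
        _ = _ := by ring
    rw [← Finset.mul_sum] at h1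
    have h3 : ∑ U ∈ SM (Pr 𝔣 M) nm (M ^ 2), nm (idl U) ^ (-1 - η / 4) ≤ C3 :=
      sum_idl (fun A hA => (allP_SM hA).1) hs3
    have hMp : 0 ≤ M ^ η := Real.rpow_nonneg hM0.le _
    calc ∑ U ∈ SM (Pr 𝔣 M) nm (M ^ 2), 12 ^ U.card / nA nm U
        ≤ C2 ^ 4 * M ^ η * ∑ U ∈ SM (Pr 𝔣 M) nm (M ^ 2), nm (idl U) ^ (-1 - η / 4) := h1
      _ ≤ C2 ^ 4 * M ^ η * C3 := mul_le_mul_of_nonneg_left h3 (by positivity)
      _ = C2 ^ 4 * C3 * M ^ η := by ring
      _ ≤ _ := mul_le_mul_of_nonneg_right (by linarith) hMp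

end Pool.Agent.Y419.NV
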