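import Pool.Agent.Y773.NV.St1

/-!
Project NV (helper773), job HAR: the harmonic sum over the ideals of a number field.
-/

set_option autoImplicit false

open Complex MeasureTheory NumberField Filter Topology

namespace Pool.Agent.Y419.NV

open Pool.Agent.Y773.NV

section
variable {K : Type} [Field K] [NumberField K]

theorem f_le (s : ℝ) : Nat.card {I : nonZeroDivisors (Ideal (𝓞 K)) //
    (Ideal.absNorm (I : Ideal (𝓞 K)) : ℝ) ≤ s} ≤ (IdM K s).card := by
  have h1 : (IdM K s).card = Nat.card (IdM K s) := by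
    rw [Nat.card_eq_fintype_card, Fintype.card_coe]
  rw [h1]
  refine Nat.card_le_card_of_injective (fun I => (⟨(I.1 : Ideal (𝓞 K)),
    mem_IdM.2 ⟨nonZeroDivisors.coe_ne_zero I.1, I.2⟩⟩ : IdM K s)) ?_
  intro a b hab
  have h2 := congrArg (fun x : IdM K s => x.1) hab
  exact Subtype.ext (Subtype.ext h2)

theorem nm_pos {𝔞 : Ideal (𝓞 K)} (h : 𝔞 ≠ ⊥) : 1 ≤ Ideal.absNorm 𝔞 :=
  Nat.one_le_iff_ne_zero.2 (by rwa [Ne, Ideal.absNorm_eq_zero_iff])

theorem tele (N : ℕ) (hN : 1 ≤ N) (k : ℕ) :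
    ∑ n ∈ Finset.range k, (if N ≤ n then (1 / (n : ℝ) - 1 / ((n : ℝ) + 1)) else 0) ≤
      1 / (N : ℝ) - 1 / ((max N k : ℕ) : ℝ) := by
  induction k with
  | zero => simp
  | succ k ih =>
    rw [Finset.sum_range_succ]
    by_cases h : N ≤ k
    · rw [if_pos h]
      rw [max_eq_right h] at ih
      rw [max_eq_right (by omega : N ≤ k + 1)]
      push_cast
      linarith
    · rw [if_neg h, add_zero]
      rw [max_eq_left (by omega : k ≤ N)] at ih
      rw [max_eq_left (by omega : k + 1 ≤ N)]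
      exact ih

theorem log_sum (n0 : ℕ) (m : ℕ) (h : n0 ≤ m) :
    Real.log (m + 1) - Real.log (n0 + 1) ≤ ∑ n ∈ Finset.Ico n0 m, 1 / ((n : ℝ) + 1) := by
  induction m, h using Nat.le_induction with
  | base => simp
  | succ m hm ih =>
    rw [Finset.sum_Ico_succ_top hm]
    have h1 : (0 : ℝ) < (m : ℝ) + 1 := by positivity
    have h2 : Real.log ((m : ℝ) + 1 + 1) - Real.log ((m : ℝ) + 1) ≤ 1 / ((m : ℝ) + 1) := by
      rw [← Real.log_div (by positivity) h1.ne']
      refine (Real.log_le_sub_one_of_pos (by positivity)).trans (le_of_eq ?_)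
      field_simp
      ring
    push_cast
    linarith

end

/-- the harmonic sum over the ideals -/
theorem t_har : St_HAR := by
  intro K _ _ ε hε
  classical
  obtain ⟨κ, hκ⟩ : ∃ κ, κ = NumberField.dedekindZeta_residue K := ⟨_, rfl⟩
  have hκ0 : 0 < κ := by rw [hκ]; exact NumberField.dedekindZeta_residue_pos K
  have hlim := NumberField.Ideal.tendsto_norm_le_div_atTop₀ K
  rw [← NumberField.dedekindZeta_residue_def, ← hκ] at hlim
  obtain ⟨η, hη⟩ : ∃ η, η = ε / (2 * (1 + ε)) := ⟨_, rfl⟩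
  have hη0 : 0 < η := by rw [hη]; positivity
  have hη2 : (1 + ε) * (1 - η) = 1 + ε / 2 := by
    rw [hη]
    field_simp
    ring
  have hη1 : 0 < 1 - η := by
    by_contra hcon
    rw [not_lt] at hcon
    have : (1 + ε) * (1 - η) ≤ 0 := mul_nonpos_of_nonneg_of_nonpos (by linarith) hcon
    linarith
  have hev := hlim.eventually_const_lt (show κ * (1 - η) < κ by nlinarith)
  obtain ⟨s0, hs0⟩ := hev.exists_forall_of_atTop
  obtain ⟨n0, hn0⟩ := exists_nat_ge (max s0 1)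
  have hn01 : (1 : ℝ) ≤ n0 := (le_max_right _ _).trans hn0
  have hn01' : 1 ≤ n0 := by exact_mod_cast hn01
  have hF : ∀ n : ℕ, n0 ≤ n → κ * (1 - η) * n ≤ ((IdM K (n : ℝ)).card : ℝ) := by
    intro n hn
    have h1 : (n0 : ℝ) ≤ n := by exact_mod_cast hn
    have h2 := hs0 n ((le_max_left _ _).trans (hn0.trans h1))
    have h3 : (0 : ℝ) < n := by linarith
    rw [lt_div_iff₀ h3] at h2
    refine h2.le.trans ?_
    exact_mod_cast f_le (K := K) (n : ℝ)
  obtain ⟨c, hc⟩ : ∃ c, c = Real.log ((n0 : ℝ) + 1) := ⟨_, rfl⟩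
  have hc0 : 0 ≤ c := by rw [hc]; exact Real.log_nonneg (by linarith)
  refine ⟨max (max 2 ((n0 : ℝ) + 1)) (Real.exp ((1 + ε / 2) * c / (ε / 2))),
    (le_max_left _ _).trans (le_max_left _ _), fun M hM => ?_⟩
  have hM2 : (2 : ℝ) ≤ M := (le_max_left _ _).trans ((le_max_left _ _).trans hM)
  have hMn : (n0 : ℝ) + 1 ≤ M := (le_max_right _ _).trans ((le_max_left _ _).trans hM)
  have hMe : Real.exp ((1 + ε / 2) * c / (ε / 2)) ≤ M := (le_max_right _ _).trans hM
  have hM0 : 0 < M := by linarith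
  obtain ⟨m, hm⟩ : ∃ m, m = ⌊M⌋₊ := ⟨_, rfl⟩
  have hm1 : (m : ℝ) ≤ M := by rw [hm]; exact Nat.floor_le hM0.le
  have hm2 : M < (m : ℝ) + 1 := by rw [hm]; exact Nat.lt_floor_add_one M
  have hn0m : n0 ≤ m + 1 := by
    have : (n0 : ℝ) < (m : ℝ) + 1 := by linarith
    have h : (n0 : ℝ) < ((m + 1 : ℕ) : ℝ) := by push_cast; exact this
    exact (Nat.cast_lt.1 h).le
  -- the sum from below
  have h1 : ∑ n ∈ Finset.Ico n0 (m + 1), κ * (1 - η) * (1 / ((n : ℝ) + 1)) ≤
      ∑ 𝔞 ∈ IdM K M, (nm 𝔞)⁻¹ := by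
    have h2 : ∑ n ∈ Finset.Ico n0 (m + 1), κ * (1 - η) * (1 / ((n : ℝ) + 1)) ≤
        ∑ n ∈ Finset.Ico n0 (m + 1), ∑ 𝔞 ∈ IdM K M,
          (if Ideal.absNorm 𝔞 ≤ n then (1 / (n : ℝ) - 1 / ((n : ℝ) + 1)) else 0) := by
      refine Finset.sum_le_sum fun n hn => ?_
      rw [Finset.mem_Ico] at hn
      have h3 : (1 : ℝ) ≤ n := by exact_mod_cast hn01'.trans hn.1
      have h4 := hF n hn.1
      rw [← Finset.sum_filter, Finset.sum_const, nsmul_eq_mul]
      have h5 : (IdM K M).filter (fun 𝔞 => Ideal.absNorm 𝔞 ≤ n) = IdM K (n : ℝ) := by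
        ext 𝔞
        rw [Finset.mem_filter, mem_IdM, mem_IdM]
        unfold nm
        rw [Nat.cast_le]
        constructor
        · rintro ⟨⟨h6, -⟩, h7⟩
          exact ⟨h6, h7⟩
        · rintro ⟨h6, h7⟩
          refine ⟨⟨h6, ?_⟩, h7⟩
          have h8 : (Ideal.absNorm 𝔞 : ℝ) ≤ n := by exact_mod_cast h7
          have h9 : (n : ℝ) ≤ m := by exact_mod_cast (by omega : n ≤ m)
          linarith
      rw [h5]
      have h6 : (1 / (n : ℝ) - 1 / ((n : ℝ) + 1)) = 1 / ((n : ℝ) * ((n : ℝ) + 1)) := by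
        field_simp
        ring
      rw [h6]
      calc κ * (1 - η) * (1 / ((n : ℝ) + 1))
          = κ * (1 - η) * n * (1 / ((n : ℝ) * ((n : ℝ) + 1))) := by
            field_simp
        _ ≤ ((IdM K (n : ℝ)).card : ℝ) * (1 / ((n : ℝ) * ((n : ℝ) + 1))) :=
            mul_le_mul_of_nonneg_right h4 (by positivity)
    refine h2.trans ?_
    rw [Finset.sum_comm]
    refine Finset.sum_le_sum fun 𝔞 h𝔞 => ?_
    have h𝔞' := (mem_IdM.1 h𝔞).1
    have h3 := tele (Ideal.absNorm 𝔞) (nm_pos h𝔞') (m + 1)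
    have h4 : ∑ n ∈ Finset.Ico n0 (m + 1),
        (if Ideal.absNorm 𝔞 ≤ n then (1 / (n : ℝ) - 1 / ((n : ℝ) + 1)) else 0) ≤
        ∑ n ∈ Finset.range (m + 1),
        (if Ideal.absNorm 𝔞 ≤ n then (1 / (n : ℝ) - 1 / ((n : ℝ) + 1)) else 0) := by
      refine Finset.sum_le_sum_of_subset_of_nonneg ?_ ?_
      · intro n hn
        rw [Finset.mem_Ico] at hn
        exact Finset.mem_range.2 hn.2
      · intro n _ _
        split_ifs with h
        · have h5 : (1 : ℝ) ≤ n := by exact_mod_cast (nm_pos h𝔞').trans h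
          rw [sub_nonneg]
          exact one_div_le_one_div_of_le (by linarith) (by linarith)
        · exact le_rfl
    refine h4.trans (h3.trans ?_)
    have h5 : (0 : ℝ) ≤ 1 / ((max (Ideal.absNorm 𝔞) (m + 1) : ℕ) : ℝ) := by positivity
    unfold nm
    rw [← one_div]
    linarith
  rw [← Finset.mul_sum] at h1
  have h2 := log_sum n0 (m + 1) hn0m
  have h3 : Real.log M ≤ Real.log (((m + 1 : ℕ) : ℝ) + 1) := by
    refine Real.log_le_log hM0 ?_
    push_cast
    linarith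
  rw [← hc] at h2
  have h4 : (1 + ε / 2) * c ≤ ε / 2 * Real.log M := by
    have h5 := Real.log_le_log (Real.exp_pos _) hMe
    rw [Real.log_exp, div_le_iff₀ (by positivity)] at h5
    linarith
  have h5 : Real.log M - c ≤ ∑ n ∈ Finset.Ico n0 (m + 1), 1 / ((n : ℝ) + 1) := by linarith
  have h6 : κ * (1 - η) * (Real.log M - c) ≤ ∑ 𝔞 ∈ IdM K M, (nm 𝔞)⁻¹ :=
    (mul_le_mul_of_nonneg_left h5 (by positivity)).trans h1
  rw [← hκ]
  calc κ * Real.log M ≤ κ * ((1 + ε / 2) * (Real.log M - c)) := by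
        refine mul_le_mul_of_nonneg_left ?_ hκ0.le
        linarith
    _ = (1 + ε) * (κ * (1 - η) * (Real.log M - c)) := by rw [← hη2]; ring
    _ ≤ (1 + ε) * ∑ 𝔞 ∈ IdM K M, (nm 𝔞)⁻¹ := mul_le_mul_of_nonneg_left h6 (by linarith)

end Pool.Agent.Y419.NV
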